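import Pool.Agent.Helper35_PA.OneStepB

/-!
# The one-step inequality
-/

namespace Pool.Agent.Helper35_PA

open Finset Pool.Agent.Helper77_PA

variable {V : Type} [Fintype V] (D : StepData V)

/-- the increment of the quadratic form -/
noncomputable def DR (v : V) (i j : Fin 2) : ℝ :=
  2 * (D.N * D.xi) * D.d1 v i + 2 * (D.N * D.xi') * D.d2 v j + 2 * (D.N * D.eta) * D.d3 v i j +
    D.d1 v i ^ 2 + D.d2 v j ^ 2 + D.d3 v i j ^ 2

theorem DR_le (v : V) (i j : Fin 2) : DR D v i j ≤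
    (2 * (D.N * D.xi) * D.t v + 2 * (D.N * D.xi') * D.t' v + 2 * (D.N * D.eta) * (D.t v * D.t' v) +
      (D.b v * (D.N * (8 * |D.xi| + 8 * |D.xi'| + 16 * |D.eta|)) + 96)) +
      (2 * (D.N * D.xi)) * D.s i + (2 * (D.N * D.xi')) * D.s j +
      (2 * (D.N * D.eta)) * (D.s i * D.s j) := by
  have hN : 0 ≤ D.N := by linarith [D.hN]
  have r1 : D.d1 v i ^ 2 ≤ 16 := by
    have := pow_le_pow_left₀ (abs_nonneg _) (D.h1 v i) 2
    rw [sq_abs] at this; linarith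
  have r2 : D.d2 v j ^ 2 ≤ 16 := by
    have := pow_le_pow_left₀ (abs_nonneg _) (D.h2 v j) 2
    rw [sq_abs] at this; linarith
  have r3 : D.d3 v i j ^ 2 ≤ 64 := by
    have := pow_le_pow_left₀ (abs_nonneg _) (D.h3 v i j) 2
    rw [sq_abs] at this; linarith
  have u1 : 2 * (D.N * D.xi) * (D.d1 v i - (D.s i + D.t v)) ≤ D.b v * (D.N * (8 * |D.xi|)) := by
    calc _ ≤ |2 * (D.N * D.xi) * (D.d1 v i - (D.s i + D.t v))| := le_abs_self _
      _ = 2 * (D.N * |D.xi|) * |D.d1 v i - (D.s i + D.t v)| := by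
          rw [abs_mul, abs_mul, abs_two, abs_mul, abs_of_nonneg hN]
      _ ≤ 2 * (D.N * |D.xi|) * (4 * D.b v) := by gcongr; exact D.h1b v i
      _ = _ := by ring
  have u2 : 2 * (D.N * D.xi') * (D.d2 v j - (D.s j + D.t' v)) ≤ D.b v * (D.N * (8 * |D.xi'|)) := by
    calc _ ≤ |2 * (D.N * D.xi') * (D.d2 v j - (D.s j + D.t' v))| := le_abs_self _
      _ = 2 * (D.N * |D.xi'|) * |D.d2 v j - (D.s j + D.t' v)| := by
          rw [abs_mul, abs_mul, abs_two, abs_mul, abs_of_nonneg hN]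
      _ ≤ 2 * (D.N * |D.xi'|) * (4 * D.b v) := by gcongr; exact D.h2b v j
      _ = _ := by ring
  have u3 : 2 * (D.N * D.eta) * (D.d3 v i j - (D.s i * D.s j + D.t v * D.t' v)) ≤
      D.b v * (D.N * (16 * |D.eta|)) := by
    calc _ ≤ |2 * (D.N * D.eta) * (D.d3 v i j - (D.s i * D.s j + D.t v * D.t' v))| :=
          le_abs_self _
      _ = 2 * (D.N * |D.eta|) * |D.d3 v i j - (D.s i * D.s j + D.t v * D.t' v)| := by
          rw [abs_mul, abs_mul, abs_two, abs_mul, abs_of_nonneg hN]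
      _ ≤ 2 * (D.N * |D.eta|) * (8 * D.b v) := by gcongr; exact D.h3b v i j
      _ = _ := by ring
  unfold DR
  linarith

theorem drift : ∑ v, ∑ i, ∑ j, D.w v i j * DR D v i j ≤
    2001 / 1000 * (D.N * (D.xi ^ 2 + D.xi' ^ 2 + D.eta ^ 2)) + 289 := by
  have hN3 := D.hN
  have hN : 0 ≤ D.N := by linarith
  set K := D.N * (8 * |D.xi| + 8 * |D.xi'| + 16 * |D.eta|) with hK
  have hK0 : 0 ≤ K := by positivity
  -- one vertex
  have hv : ∀ v, ∑ i, ∑ j, D.w v i j * DR D v i j ≤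
      2 * (D.N * D.xi) * (D.q v * D.t v) + 2 * (D.N * D.xi') * (D.q v * D.t' v) +
      2 * (D.N * D.eta) * (D.q v * (D.t v * D.t' v)) + 2 * (D.N * D.xi) * (D.q v * al D v) +
      2 * (D.N * D.xi') * (D.q v * al' D v) + 2 * (D.N * D.eta) * (D.q v * (al D v * al' D v)) +
      (D.N * (1 / 10000 * ((|D.xi| + |D.xi'| + 2 * |D.eta|) * (|D.xi| + |D.xi'|))) + 96096 / 1000) *
        D.q v + 1001 / 1000 * K * (D.q v * D.b v) := by
    intro v
    calc ∑ i, ∑ j, D.w v i j * DR D v i j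
        ≤ ∑ i, ∑ j, D.w v i j * ((2 * (D.N * D.xi) * D.t v + 2 * (D.N * D.xi') * D.t' v +
          2 * (D.N * D.eta) * (D.t v * D.t' v) + (D.b v * K + 96)) +
          (2 * (D.N * D.xi)) * D.s i + (2 * (D.N * D.xi')) * D.s j +
          (2 * (D.N * D.eta)) * (D.s i * D.s j)) := by
          apply Finset.sum_le_sum; intro i _
          apply Finset.sum_le_sum; intro j _
          exact mul_le_mul_of_nonneg_left (DR_le D v i j) (w_nonneg D v i j)
      _ ≤ D.q v * (2 * (D.N * D.xi) * D.t v + 2 * (D.N * D.xi') * D.t' v +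
          2 * (D.N * D.eta) * (D.t v * D.t' v) + 2 * (D.N * D.xi) * al D v +
          2 * (D.N * D.xi') * al' D v + 2 * (D.N * D.eta) * (al D v * al' D v) +
          D.N * (1 / 10000 * ((|D.xi| + |D.xi'| + 2 * |D.eta|) * (|D.xi| + |D.xi'|))) +
          1001 / 1000 * (D.b v * K + 96)) := by
          rw [sum_w]
          apply mul_le_mul_of_nonneg_left _ (D.hq v)
          exact drift_point _ _ _ _ _ _ _ _ hN (D.ht v) (D.ht' v) (xi_bd D) (xi'_bd D)
            (al_bd D v) (al'_bd D v) _ (by have := D.hb v; positivity)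
      _ = _ := by ring
  have hsum : ∑ v, ∑ i, ∑ j, D.w v i j * DR D v i j ≤
      2 * (D.N * D.xi) * D.xi + 2 * (D.N * D.xi') * D.xi' + 2 * (D.N * D.eta) * D.eta +
      2 * (D.N * D.eta) * (th ^ 2 * (gg D D.xi * gg D D.xi') * (D.eta - D.xi * D.xi')) +
      (D.N * (1 / 10000 * ((|D.xi| + |D.xi'| + 2 * |D.eta|) * (|D.xi| + |D.xi'|))) + 96096 / 1000)
      + 1001 / 1000 * K * ∑ v, D.q v * D.b v := by
    refine (Finset.sum_le_sum fun v _ => hv v).trans (le_of_eq ?_)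
    simp only [Finset.sum_add_distrib, ← Finset.mul_sum]
    rw [D.hq1, sum_al, sum_al', sum_al_al']
    have h1 : ∑ v, D.q v * D.t v = D.xi := rfl
    have h2 : ∑ v, D.q v * D.t' v = D.xi' := rfl
    have h3 : ∑ v, D.q v * (D.t v * D.t' v) = D.eta := rfl
    rw [h1, h2, h3]
    ring
  have hx := xi_bd D
  have hx' := xi'_bd D
  have hy := eta_bd D
  have hx0 := abs_nonneg D.xi
  have hx'0 := abs_nonneg D.xi'
  have hy0 := abs_nonneg D.eta
  have hKb : 1001 / 1000 * K * ∑ v, D.q v * D.b v ≤ 192192 / 1000 := by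
    have h1 : K * ∑ v, D.q v * D.b v ≤ K * (2 / D.N) := by
      gcongr; exact D.hb1
    have h2 : K * (2 / D.N) = 16 * |D.xi| + 16 * |D.xi'| + 32 * |D.eta| := by
      rw [hK]
      have : D.N ≠ 0 := by linarith
      field_simp
      ring
    have h3 : 1001 / 1000 * K * ∑ v, D.q v * D.b v = 1001 / 1000 * (K * ∑ v, D.q v * D.b v) := by
      ring
    rw [h3]
    linarith
  have hE1 : 2 * (D.N * D.eta) * (th ^ 2 * (gg D D.xi * gg D D.xi') * (D.eta - D.xi * D.xi')) ≤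
      D.N * (3 / 10 ^ 6 * (|D.eta| * (|D.eta| + 2 * |D.xi|))) := by
    have e1 : 2 * (D.N * D.eta) * (th ^ 2 * (gg D D.xi * gg D D.xi') * (D.eta - D.xi * D.xi')) =
      D.N * ((2 * th ^ 2 * (gg D D.xi * gg D D.xi')) * (D.eta * (D.eta - D.xi * D.xi'))) := by ring
    rw [e1]
    apply mul_le_mul_of_nonneg_left _ hN
    obtain ⟨g1, g2⟩ := gg_bd D hx
    obtain ⟨g1', g2'⟩ := gg_bd D hx'
    have e2 : gg D D.xi * gg D D.xi' ≤ 101 / 100 * (101 / 100) := mul_le_mul g2 g2' g1' (by norm_num)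
    have e3 : D.eta * (D.eta - D.xi * D.xi') ≤ |D.eta| * (|D.eta| + 2 * |D.xi|) := by
      calc _ ≤ |D.eta * (D.eta - D.xi * D.xi')| := le_abs_self _
        _ = |D.eta| * |D.eta - D.xi * D.xi'| := abs_mul _ _
        _ ≤ |D.eta| * (|D.eta| + |D.xi * D.xi'|) := by gcongr; exact abs_sub _ _
        _ ≤ _ := by
            rw [abs_mul]
            have e6 : |D.xi| * |D.xi'| ≤ 2 * |D.xi| := by nlinarith
            gcongr
    have e4 : 0 ≤ |D.eta| * (|D.eta| + 2 * |D.xi|) := by positivity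
    have e5 : 0 ≤ gg D D.xi * gg D D.xi' := mul_nonneg g1 g1'
    calc (2 * th ^ 2 * (gg D D.xi * gg D D.xi')) * (D.eta * (D.eta - D.xi * D.xi'))
        ≤ (2 * th ^ 2 * (gg D D.xi * gg D D.xi')) * (|D.eta| * (|D.eta| + 2 * |D.xi|)) := by gcongr
      _ ≤ (2 * th ^ 2 * (101 / 100 * (101 / 100))) * (|D.eta| * (|D.eta| + 2 * |D.xi|)) := by gcongr
      _ ≤ _ := by
          gcongr
          unfold th
          norm_num
  have hfin : D.N * (3 / 10 ^ 6 * (|D.eta| * (|D.eta| + 2 * |D.xi|))) +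
      D.N * (1 / 10000 * ((|D.xi| + |D.xi'| + 2 * |D.eta|) * (|D.xi| + |D.xi'|))) ≤
      1 / 1000 * (D.N * (D.xi ^ 2 + D.xi' ^ 2 + D.eta ^ 2)) := by
    rw [← mul_add]
    have e1 : 1 / 1000 * (D.N * (D.xi ^ 2 + D.xi' ^ 2 + D.eta ^ 2)) =
      D.N * (1 / 1000 * (|D.xi| ^ 2 + |D.xi'| ^ 2 + |D.eta| ^ 2)) := by
      rw [sq_abs, sq_abs, sq_abs]; ring
    rw [e1]
    apply mul_le_mul_of_nonneg_left _ hN
    nlinarith [sq_nonneg (|D.xi| - |D.xi'|), sq_nonneg (|D.xi| - |D.eta|),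
      sq_nonneg (|D.xi'| - |D.eta|)]
  have e0 : 2 * (D.N * D.xi) * D.xi + 2 * (D.N * D.xi') * D.xi' + 2 * (D.N * D.eta) * D.eta =
    2 * (D.N * (D.xi ^ 2 + D.xi' ^ 2 + D.eta ^ 2)) := by ring
  linarith

theorem mass_le : ∑ v, ∑ i, ∑ j, D.w v i j ≤ 1 + 2 / 10 ^ 12 * (|D.xi| * |D.xi'| * |D.eta|) ∧
    1 - 1 / 10 ^ 9 ≤ ∑ v, ∑ i, ∑ j, D.w v i j := by
  rw [sum_w_one]
  have hx := xi_bd D
  have hx' := xi'_bd D
  have hy := eta_bd D
  obtain ⟨g1, g2⟩ := gg_bd D hx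
  obtain ⟨g1', g2'⟩ := gg_bd D hx'
  have e2 : gg D D.xi * gg D D.xi' ≤ 101 / 100 * (101 / 100) := mul_le_mul g2 g2' g1' (by norm_num)
  have e5 : 0 ≤ gg D D.xi * gg D D.xi' := mul_nonneg g1 g1'
  have e6 : D.xi * D.xi' * (D.eta - D.xi * D.xi') ≤ |D.xi| * |D.xi'| * |D.eta| := by
    have : D.xi * D.xi' * D.eta ≤ |D.xi| * |D.xi'| * |D.eta| := by
      rw [← abs_mul, ← abs_mul]; exact le_abs_self _
    nlinarith [sq_nonneg (D.xi * D.xi')]
  have e7 : |D.xi * D.xi'| ≤ 4 := by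
    rw [abs_mul]
    have := mul_le_mul hx hx' (abs_nonneg _) (by norm_num)
    linarith
  constructor
  · have e8 : 0 ≤ |D.xi| * |D.xi'| * |D.eta| := by positivity
    have : th ^ 4 * (gg D D.xi * gg D D.xi') * (D.xi * D.xi' * (D.eta - D.xi * D.xi')) ≤
        2 / 10 ^ 12 * (|D.xi| * |D.xi'| * |D.eta|) := by
      calc _ ≤ th ^ 4 * (gg D D.xi * gg D D.xi') * (|D.xi| * |D.xi'| * |D.eta|) := by
            gcongr
        _ ≤ th ^ 4 * (101 / 100 * (101 / 100)) * (|D.xi| * |D.xi'| * |D.eta|) := by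
            gcongr
        _ ≤ _ := by
            gcongr
            unfold th; norm_num
    linarith
  · have e9 : |D.xi * D.xi' * (D.eta - D.xi * D.xi')| ≤ 32 := by
      rw [abs_mul]
      have : |D.eta - D.xi * D.xi'| ≤ 8 := by
        calc _ ≤ |D.eta| + |D.xi * D.xi'| := abs_sub _ _
          _ ≤ _ := by linarith
      calc |D.xi * D.xi'| * |D.eta - D.xi * D.xi'| ≤ 4 * 8 := by gcongr
        _ = 32 := by norm_num
    have e10 : |th ^ 4 * (gg D D.xi * gg D D.xi') * (D.xi * D.xi' * (D.eta - D.xi * D.xi'))| ≤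
        1 / 10 ^ 9 := by
      rw [abs_mul, abs_mul, abs_of_nonneg e5]
      have : |th ^ 4| = 1 / 10 ^ 12 := by unfold th; norm_num
      rw [this]
      calc _ ≤ (1 : ℝ) / 10 ^ 12 * (101 / 100 * (101 / 100)) * 32 := by gcongr
        _ ≤ _ := by norm_num
    linarith [(abs_le.1 e10).1]

/-- The one-step inequality. -/
theorem oneStep : OneStepStatement := by
  intro V _ D
  have hN3 := D.hN
  have hN : 0 < D.N := by linarith
  have hx := xi_bd D
  have hx' := xi'_bd D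
  have hy := eta_bd D
  have hx0 := abs_nonneg D.xi
  have hx'0 := abs_nonneg D.xi'
  have hy0 := abs_nonneg D.eta
  set X := D.N * D.xi with hX
  set X' := D.N * D.xi' with hX'
  set Y := D.N * D.eta with hY
  set R := X ^ 2 + X' ^ 2 + Y ^ 2 with hR
  have hR0 : 0 ≤ R := by positivity
  set H := 10000 * D.N + X ^ 2 + X' ^ 2 + Y ^ 2 with hH
  have hHR : H = 10000 * D.N + R := by rw [hH, hR]; ring
  have hH0 : 0 < H := by positivity
  set h := Real.sqrt H with hh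
  have hh2 : h ^ 2 = H := Real.sq_sqrt hH0.le
  have hh0 : 0 < h := Real.sqrt_pos.2 hH0
  set E := 1 / 10 ^ 9 * (H * h / D.N ^ 2) with hE
  have hE0 : 0 < E := by positivity
  have hpt : ∀ v i j, D.w v i j * Phi (D.N + 2) (X + D.d1 v i) (X' + D.d2 v j) (Y + D.d3 v i j) ≤
      Phi D.N X X' Y * ((1 - E * (7 / 10 / (D.N + 2) + 3 / 2 * (2 * R / ((D.N + 2) * H)))) *
        D.w v i j + E * (3 / 2 * (D.N / ((D.N + 2) * H))) * (D.w v i j * DR D v i j)) := by
    intro v i j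
    have key := point D.N X X' Y (D.d1 v i) (D.d2 v j) (D.d3 v i j) hN3
      (by rw [hX, abs_mul, abs_of_pos hN]; nlinarith)
      (by rw [hX', abs_mul, abs_of_pos hN]; nlinarith)
      (by rw [hY, abs_mul, abs_of_pos hN]; nlinarith) (D.h1 v i) (D.h2 v j) (D.h3 v i j)
    have key2 := mul_le_mul_of_nonneg_left key (w_nonneg D v i j)
    refine key2.trans (le_of_eq ?_)
    have e1 : 2 * X * D.d1 v i + 2 * X' * D.d2 v j + 2 * Y * D.d3 v i j + D.d1 v i ^ 2 +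
      D.d2 v j ^ 2 + D.d3 v i j ^ 2 = DR D v i j := rfl
    rw [e1, ← hR, ← hH, ← hh, ← hE]
    ring
  have hsum : ∑ v, ∑ i, ∑ j, D.w v i j *
      Phi (D.N + 2) (X + D.d1 v i) (X' + D.d2 v j) (Y + D.d3 v i j) ≤
      Phi D.N X X' Y * ((1 - E * (7 / 10 / (D.N + 2) + 3 / 2 * (2 * R / ((D.N + 2) * H)))) *
        (∑ v, ∑ i, ∑ j, D.w v i j) + E * (3 / 2 * (D.N / ((D.N + 2) * H))) *
        ∑ v, ∑ i, ∑ j, D.w v i j * DR D v i j) := by
    refine (Finset.sum_le_sum fun v _ => Finset.sum_le_sum fun i _ =>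
      Finset.sum_le_sum fun j _ => hpt v i j).trans (le_of_eq ?_)
    simp only [← Finset.mul_sum, Finset.sum_add_distrib]
  refine hsum.trans ?_
  have hPhi : 0 < Phi D.N X X' Y := Real.exp_pos _
  suffices hs : (1 - E * (7 / 10 / (D.N + 2) + 3 / 2 * (2 * R / ((D.N + 2) * H)))) *
        (∑ v, ∑ i, ∑ j, D.w v i j) + E * (3 / 2 * (D.N / ((D.N + 2) * H))) *
        (∑ v, ∑ i, ∑ j, D.w v i j * DR D v i j) ≤ 1 by
    calc _ ≤ Phi D.N X X' Y * 1 := mul_le_mul_of_nonneg_left hs hPhi.le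
      _ = _ := mul_one _
  obtain ⟨m1, m2⟩ := mass_le D
  have hd := drift D
  set S1 := ∑ v, ∑ i, ∑ j, D.w v i j with hS1
  set SD := ∑ v, ∑ i, ∑ j, D.w v i j * DR D v i j with hSD
  have hRN : D.N * (D.N * (D.xi ^ 2 + D.xi' ^ 2 + D.eta ^ 2)) = R := by
    rw [hR, hX, hX', hY]; ring
  have a1 : D.N * SD - 2 * R * S1 ≤ 289 / 10000 * H := by
    have b1 : D.N * SD ≤ 2001 / 1000 * R + 289 * D.N := by
      calc D.N * SD ≤ D.N * (2001 / 1000 * (D.N * (D.xi ^ 2 + D.xi' ^ 2 + D.eta ^ 2)) + 289) := by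
            gcongr
        _ = 2001 / 1000 * (D.N * (D.N * (D.xi ^ 2 + D.xi' ^ 2 + D.eta ^ 2))) + 289 * D.N := by ring
        _ = _ := by rw [hRN]
    have b2 : 2 * R * (1 - 1 / 10 ^ 9) ≤ 2 * R * S1 := by gcongr
    rw [hHR]
    linarith
  have a2 : (1 - E * (7 / 10 / (D.N + 2) + 3 / 2 * (2 * R / ((D.N + 2) * H)))) * S1 +
      E * (3 / 2 * (D.N / ((D.N + 2) * H))) * SD =
      S1 + E / (D.N + 2) * (3 / 2 * ((D.N * SD - 2 * R * S1) / H) - 7 / 10 * S1) := by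
    have : D.N + 2 ≠ 0 := by linarith
    field_simp
    ring
  rw [a2]
  have a3 : (D.N * SD - 2 * R * S1) / H ≤ 289 / 10000 := by
    rw [div_le_iff₀ hH0]; exact a1
  have a4 : 3 / 2 * ((D.N * SD - 2 * R * S1) / H) - 7 / 10 * S1 ≤ -(6 / 10) := by
    linarith
  have a5 : E / (D.N + 2) * (3 / 2 * ((D.N * SD - 2 * R * S1) / H) - 7 / 10 * S1) ≤
      E / (D.N + 2) * (-(6 / 10)) := by
    apply mul_le_mul_of_nonneg_left a4
    positivity
  have a6 : 2 / 10 ^ 12 * (|D.xi| * |D.xi'| * |D.eta|) ≤ E / (D.N + 2) * (6 / 10) := by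
    have c1 : |D.xi| ≤ h / D.N := by
      rw [le_div_iff₀ hN]
      apply abs_le_of_sq_le_sq' _ hh0.le |>.2
      rw [hh2, hHR, mul_pow, sq_abs, hR, hX]
      nlinarith [sq_nonneg X', sq_nonneg Y]
    have c2 : |D.xi'| ≤ h / D.N := by
      rw [le_div_iff₀ hN]
      apply abs_le_of_sq_le_sq' _ hh0.le |>.2
      rw [hh2, hHR, mul_pow, sq_abs, hR, hX']
      nlinarith [sq_nonneg X, sq_nonneg Y]
    have c3 : |D.eta| ≤ h / D.N := by
      rw [le_div_iff₀ hN]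
      apply abs_le_of_sq_le_sq' _ hh0.le |>.2
      rw [hh2, hHR, mul_pow, sq_abs, hR, hY]
      nlinarith [sq_nonneg X, sq_nonneg X']
    have c4 : |D.xi| * |D.xi'| * |D.eta| ≤ (h / D.N) * (h / D.N) * (h / D.N) := by gcongr
    have c5 : E / (D.N + 2) = 1 / 10 ^ 9 * (h ^ 3 / (D.N ^ 2 * (D.N + 2))) := by
      rw [hE, ← hh2]; field_simp
    have c6 : 3 / 5 * ((h / D.N) * (h / D.N) * (h / D.N)) ≤ h ^ 3 / (D.N ^ 2 * (D.N + 2)) := by
      have : 3 / 5 * ((h / D.N) * (h / D.N) * (h / D.N)) = h ^ 3 / (D.N ^ 2 * (5 / 3 * D.N)) := by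
        field_simp
      rw [this]
      apply div_le_div_of_nonneg_left (by positivity) (by positivity)
      apply mul_le_mul_of_nonneg_left _ (by positivity)
      linarith
    rw [c5]
    have c7 : 0 ≤ (h / D.N) * (h / D.N) * (h / D.N) := by positivity
    linarith
  linarith

end Pool.Agent.Helper35_PA
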