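import Pool.Agent.Helper77_PA.OneStepDefs

/-!
# The one-step inequality: pointwise estimates
-/

namespace Pool.Agent.Helper35_PA

open Finset Pool.Agent.Helper77_PA

/-- sums of the likelihood ratio factors over the two label values -/
theorem rho_sums (p0 p1 s0 s1 t x : ℝ) (h1 : p0 + p1 = 1) (h2 : p0 * s0 + p1 * s1 = 0)
    (hd0 : 1 + th * s0 * x ≠ 0) (hd1 : 1 + th * s1 * x ≠ 0) (g : ℝ)
    (hg : g = p0 * s0 ^ 2 / (1 + th * s0 * x) + p1 * s1 ^ 2 / (1 + th * s1 * x)) :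
    p0 * rho s0 t x + p1 * rho s1 t x = 1 - th * x * (th * g * (t - x)) ∧
      s0 * (p0 * rho s0 t x) + s1 * (p1 * rho s1 t x) = th * g * (t - x) := by
  have e0 : rho s0 t x = 1 + th * s0 * (t - x) * (1 / (1 + th * s0 * x)) := by
    unfold rho; field_simp; ring
  have e1 : rho s1 t x = 1 + th * s1 * (t - x) * (1 / (1 + th * s1 * x)) := by
    unfold rho; field_simp; ring
  set u0 := 1 / (1 + th * s0 * x) with hu0
  set u1 := 1 / (1 + th * s1 * x) with hu1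
  have f0 : u0 * (1 + th * s0 * x) = 1 := by rw [hu0]; field_simp
  have f1 : u1 * (1 + th * s1 * x) = 1 := by rw [hu1]; field_simp
  have hg' : g = p0 * s0 ^ 2 * u0 + p1 * s1 ^ 2 * u1 := by
    rw [hg, hu0, hu1]; ring
  constructor
  · rw [e0, e1, hg']
    linear_combination h1 + th * (t - x) * h2 + th * (t - x) * p0 * s0 * f0
      + th * (t - x) * p1 * s1 * f1
  · rw [e0, e1, hg']
    linear_combination h2

theorem den_bd {s x : ℝ} (hs : |s| ≤ 2) (hx : |x| ≤ 2) :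
    (996 / 1000 : ℝ) ≤ 1 + th * s * x ∧ 1 + th * s * x ≤ 1004 / 1000 := by
  have h : |s * x| ≤ 4 := by
    rw [abs_mul]
    nlinarith [abs_nonneg s, abs_nonneg x]
  rw [abs_le] at h
  unfold th
  constructor <;> nlinarith [h.1, h.2]

theorem g_bd (p0 p1 s0 s1 x : ℝ) (hp0 : 0 ≤ p0) (hp1 : 0 ≤ p1)
    (h2 : p0 * s0 ^ 2 + p1 * s1 ^ 2 = 1) (hs0 : |s0| ≤ 2) (hs1 : |s1| ≤ 2) (hx : |x| ≤ 2) (g : ℝ)
    (hg : g = p0 * s0 ^ 2 / (1 + th * s0 * x) + p1 * s1 ^ 2 / (1 + th * s1 * x)) :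
    0 ≤ g ∧ g ≤ 101 / 100 := by
  obtain ⟨a1, a2⟩ := den_bd hs0 hx
  obtain ⟨b1, b2⟩ := den_bd hs1 hx
  have ha : 0 < 1 + th * s0 * x := by linarith
  have hb : 0 < 1 + th * s1 * x := by linarith
  have hA : 0 ≤ p0 * s0 ^ 2 := by positivity
  have hB : 0 ≤ p1 * s1 ^ 2 := by positivity
  constructor
  · rw [hg]; positivity
  · have i1 : p0 * s0 ^ 2 / (1 + th * s0 * x) ≤ 101 / 100 * (p0 * s0 ^ 2) := by
      rw [div_le_iff₀ ha]; nlinarith
    have i2 : p1 * s1 ^ 2 / (1 + th * s1 * x) ≤ 101 / 100 * (p1 * s1 ^ 2) := by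
      rw [div_le_iff₀ hb]; nlinarith
    rw [hg]; linarith

theorem rho_nonneg {s t x : ℝ} (hs : |s| ≤ 2) (ht : |t| ≤ 2) (hx : |x| ≤ 2) : 0 ≤ rho s t x := by
  unfold rho
  have a := (den_bd hs ht).1
  have b := (den_bd hs hx).1
  apply div_nonneg <;> linarith

/-- pointwise bound: `H` old, `K` new, `h` square root of `H`, `k` square root of `K` -/
theorem exp_point (N H K D R h k : ℝ) (hN : 3 ≤ N) (hH : H = 10000 * N + R) (hR : 0 ≤ R)
    (hR2 : R ≤ 24 * N ^ 2) (hK : K = 10000 * (N + 2) + R + D) (hh : h ^ 2 = H) (hh0 : 0 ≤ h)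
    (hk : k ^ 2 = K) (hD : |D| ≤ 196 / 10 * h + 96) :
    Real.exp (1 / 10 ^ 9 * (K * k / (N + 2) ^ 2)) ≤
      Real.exp (1 / 10 ^ 9 * (H * h / N ^ 2)) *
        (1 + 1 / 10 ^ 9 * (H * h / N ^ 2) *
          (3 / 2 * ((N * D - 2 * R) / ((N + 2) * H)) - 7 / 10 / (N + 2))) := by
  have hN0 : 0 < N := by linarith
  have hN2 : 0 < N + 2 := by linarith
  have hHpos : 0 < H := by nlinarith
  have hhpos : 0 < h := by
    rcases hh0.lt_or_eq with h1 | h1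
    · exact h1
    · rw [← h1] at hh; nlinarith
  -- bounds for h
  have hh1 : 173 ≤ h := by nlinarith
  have hh2 : h ≤ 58 * N := by nlinarith
  have hh3 : 10000 * N ≤ h ^ 2 := by rw [hh]; linarith
  set E : ℝ := 1 / 10 ^ 9 * (H * h / N ^ 2) with hE
  have hE0 : 0 < E := by positivity
  set τ : ℝ := (N * D - 2 * R) / ((N + 2) * H) with hτ
  have hτK : (N + 2) * H * (1 + τ) = N * K := by
    rw [hτ]
    field_simp
    rw [hK, hH]; ring
  -- size of τ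
  have hRh : 2 * R ≤ 98 / 10 * N * h := by
    have h1 : R ≤ h ^ 2 := by rw [hh, hH]; linarith
    have h2 : R ^ 2 ≤ (49 / 10 * N * h) ^ 2 := by
      have e1 : R * R ≤ (24 * N ^ 2) * h ^ 2 := mul_le_mul hR2 h1 hR (by positivity)
      have e2 : (49 / 10 * N * h) ^ 2 = 2401 / 100 * (N ^ 2 * h ^ 2) := by ring
      have e3 : 0 ≤ N ^ 2 * h ^ 2 := by positivity
      rw [e2, sq]
      linarith
    have h3 : R ≤ 49 / 10 * N * h := abs_le_of_sq_le_sq' h2 (by positivity) |>.2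
    linarith
  have hnum : |N * D - 2 * R| ≤ 30 * N * h := by
    have h1 : |D| ≤ 2016 / 100 * h := by linarith
    have h2 : |N * D| ≤ 2016 / 100 * N * h := by
      rw [abs_mul, abs_of_pos hN0]
      calc N * |D| ≤ N * (2016 / 100 * h) := by gcongr
        _ = _ := by ring
    have h3 : |2 * R| ≤ 98 / 10 * N * h := by rw [abs_of_nonneg (by positivity)]; exact hRh
    calc |N * D - 2 * R| ≤ |N * D| + |2 * R| := abs_sub _ _
      _ ≤ _ := by
        have e1 : 2016 / 100 * N * h + 98 / 10 * N * h = 2996 / 100 * (N * h) := by ring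
        have e2 : 30 * N * h = 30 * (N * h) := by ring
        have e3 : 0 < N * h := mul_pos hN0 hhpos
        rw [e2]; linarith
  have hτabs : |τ| * ((N + 2) * h) ≤ 30 * N := by
    rw [hτ, abs_div, abs_of_pos (by positivity : 0 < (N + 2) * H), div_mul_eq_mul_div,
      div_le_iff₀ (by positivity), ← hh]
    calc |N * D - 2 * R| * ((N + 2) * h) ≤ (30 * N * h) * ((N + 2) * h) := by gcongr
      _ = _ := by ring
  -- squares
  have hs1 : τ ^ 2 * (N + 2) ^ 2 * h ^ 2 ≤ 900 * N ^ 2 := by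
    have h1 : (|τ| * ((N + 2) * h)) ^ 2 ≤ (30 * N) ^ 2 := by gcongr
    calc τ ^ 2 * (N + 2) ^ 2 * h ^ 2 = (|τ| * ((N + 2) * h)) ^ 2 := by
          rw [mul_pow, sq_abs]; ring
      _ ≤ _ := h1
      _ = _ := by ring
  have hs2 : τ ^ 2 * (N + 2) ^ 2 ≤ 9 / 100 * N := by
    have h1 : τ ^ 2 * (N + 2) ^ 2 * (10000 * N) ≤ 900 * N ^ 2 :=
      le_trans (mul_le_mul_of_nonneg_left hh3 (by positivity)) hs1
    have h2 : (10000 * N) * (τ ^ 2 * (N + 2) ^ 2) ≤ (10000 * N) * (9 / 100 * N) := by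
      calc _ = τ ^ 2 * (N + 2) ^ 2 * (10000 * N) := by ring
        _ ≤ 900 * N ^ 2 := h1
        _ = _ := by ring
    exact le_of_mul_le_mul_left h2 (by positivity)
  have hs3 : τ ^ 2 * (N + 2) ≤ 9 / 100 := by
    have h2 : (N + 2) * (τ ^ 2 * (N + 2)) ≤ (N + 2) * (9 / 100) := by
      have e1 : (N + 2) * (τ ^ 2 * (N + 2)) = τ ^ 2 * (N + 2) ^ 2 := by ring
      rw [e1]
      linarith
    exact le_of_mul_le_mul_left h2 (by positivity)
  have hs4 : τ ^ 2 ≤ 18 / 1000 := by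
    have e1 : τ ^ 2 * 5 ≤ τ ^ 2 * (N + 2) := mul_le_mul_of_nonneg_left (by linarith) (sq_nonneg τ)
    linarith
  have hs5 : |τ| ≤ 135 / 1000 := abs_le_of_sq_le_sq (by norm_num; linarith) (by norm_num)
  rw [abs_le] at hs5
  set ι : ℝ := 1 / (N + 2) with hι
  have hι0 : 0 < ι := by positivity
  have hι1 : (N + 2) * ι = 1 := by rw [hι]; field_simp
  have hι5 : ι ≤ 1 / 5 := by rw [hι, div_le_div_iff₀ hN2 (by norm_num)]; linarith
  have hEh : E = 1 / 10 ^ 9 * (h ^ 3 / N ^ 2) := by rw [hE, ← hh]; ring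
  have hE1 : E * N ^ 2 = 1 / 10 ^ 9 * h ^ 3 := by rw [hEh]; field_simp
  have hE2 : E * ι ≤ 2 / 10 ^ 4 := by
    have h1 : h ^ 3 ≤ (58 * N) ^ 3 := by gcongr
    have h2 : N ^ 2 * E ≤ N ^ 2 * (196 / 10 ^ 6 * N) := by
      have e1 : (58 * N) ^ 3 = 195112 * N ^ 3 := by ring
      have e2 : N ^ 2 * (196 / 10 ^ 6 * N) = 196 / 10 ^ 6 * N ^ 3 := by ring
      have e3 : 0 < N ^ 3 := by positivity
      rw [e2]
      linarith [mul_comm E (N ^ 2)]
    have h3 : E ≤ 196 / 10 ^ 6 * N := le_of_mul_le_mul_left h2 (by positivity)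
    have h4 : E ≤ 2 / 10 ^ 4 * (N + 2) := by linarith
    calc E * ι ≤ 2 / 10 ^ 4 * (N + 2) * ι := by gcongr
      _ = 2 / 10 ^ 4 * ((N + 2) * ι) := by ring
      _ = _ := by rw [hι1]; ring
  have hE3 : E * τ ^ 2 ≤ 522 / 10 ^ 7 * ι := by
    have h1 : N ^ 2 * (E * (τ ^ 2 * (N + 2) ^ 2)) ≤ N ^ 2 * (522 / 10 ^ 7 * N) := by
      calc N ^ 2 * (E * (τ ^ 2 * (N + 2) ^ 2))
          = 1 / 10 ^ 9 * h * (τ ^ 2 * (N + 2) ^ 2 * h ^ 2) := by
            calc _ = (E * N ^ 2) * (τ ^ 2 * (N + 2) ^ 2) := by ring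
              _ = _ := by rw [hE1]; ring
        _ ≤ 1 / 10 ^ 9 * h * (900 * N ^ 2) := by gcongr
        _ ≤ 1 / 10 ^ 9 * (58 * N) * (900 * N ^ 2) := by gcongr
        _ = _ := by ring
    have h2 : E * (τ ^ 2 * (N + 2) ^ 2) ≤ 522 / 10 ^ 7 * N :=
      le_of_mul_le_mul_left h1 (by positivity)
    have h3 : E * (τ ^ 2 * (N + 2) ^ 2) ≤ 522 / 10 ^ 7 * (N + 2) := by linarith
    calc E * τ ^ 2 = E * (τ ^ 2 * (N + 2) ^ 2) * ι ^ 2 := by
          calc E * τ ^ 2 = E * τ ^ 2 * ((N + 2) * ι) ^ 2 := by rw [hι1]; ring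
            _ = _ := by ring
      _ ≤ 522 / 10 ^ 7 * (N + 2) * ι ^ 2 := by gcongr
      _ = 522 / 10 ^ 7 * ι * ((N + 2) * ι) := by ring
      _ = _ := by rw [hι1]; ring
  set β : ℝ := 3 / 2 * τ + 1 / 2 * τ ^ 2 - (1 + τ) ^ 2 * ι with hβ
  have hβ1 : β ^ 2 ≤ 494 / 100 * τ ^ 2 + 334 / 100 * ι ^ 2 := by
    have h1 : (3 / 2 * τ + 1 / 2 * τ ^ 2) ^ 2 ≤ 247 / 100 * τ ^ 2 := by
      have : (3 / 2 + 1 / 2 * τ) ^ 2 ≤ 247 / 100 := by
        have e1 : (3 / 2 + 1 / 2 * τ) ^ 2 = 9 / 4 + 3 / 2 * τ + 1 / 4 * τ ^ 2 := by ring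
        rw [e1]; linarith [hs5.1, hs5.2]
      calc (3 / 2 * τ + 1 / 2 * τ ^ 2) ^ 2 = (3 / 2 + 1 / 2 * τ) ^ 2 * τ ^ 2 := by ring
        _ ≤ _ := by gcongr
    have h2 : ((1 + τ) ^ 2 * ι) ^ 2 ≤ 167 / 100 * ι ^ 2 := by
      have h3 : (1 + τ) ^ 2 ≤ 1289 / 1000 := by
        have e1 : (1 + τ) ^ 2 = 1 + 2 * τ + τ ^ 2 := by ring
        rw [e1]; linarith [hs5.1, hs5.2]
      have : ((1 + τ) ^ 2) ^ 2 ≤ 167 / 100 := by
        calc ((1 + τ) ^ 2) ^ 2 ≤ (1289 / 1000) ^ 2 := by gcongr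
          _ ≤ _ := by norm_num
      calc ((1 + τ) ^ 2 * ι) ^ 2 = ((1 + τ) ^ 2) ^ 2 * ι ^ 2 := by ring
        _ ≤ _ := by gcongr
    have h5 : ∀ a b : ℝ, (a - b) ^ 2 ≤ 2 * a ^ 2 + 2 * b ^ 2 := fun a b => by
      nlinarith [sq_nonneg (a + b)]
    rw [hβ]
    linarith [h5 (3 / 2 * τ + 1 / 2 * τ ^ 2) ((1 + τ) ^ 2 * ι)]
  have hβ2 : E * β ^ 2 ≤ 1 / 1000 * ι := by
    have h1 : E * ι ^ 2 ≤ 2 / 10 ^ 4 * ι := by
      calc E * ι ^ 2 = (E * ι) * ι := by ring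
        _ ≤ _ := by gcongr
    calc E * β ^ 2 ≤ E * (494 / 100 * τ ^ 2 + 334 / 100 * ι ^ 2) := by gcongr
      _ = 494 / 100 * (E * τ ^ 2) + 334 / 100 * (E * ι ^ 2) := by ring
      _ ≤ 494 / 100 * (522 / 10 ^ 7 * ι) + 334 / 100 * (2 / 10 ^ 4 * ι) := by gcongr
      _ ≤ _ := by linarith
  have hU1 : |E * β| ≤ 1 := by
    apply abs_le_of_sq_le_sq _ (by norm_num)
    calc (E * β) ^ 2 = E * (E * β ^ 2) := by ring
      _ ≤ E * (1 / 1000 * ι) := by gcongr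
      _ = 1 / 1000 * (E * ι) := by ring
      _ ≤ 1 / 1000 * (2 / 10 ^ 4) := by gcongr
      _ ≤ 1 ^ 2 := by norm_num
  -- the exponent
  have hEU : 1 / 10 ^ 9 * (K * k / (N + 2) ^ 2) ≤ E + E * β := by
    have hK0 : 0 ≤ K := by rw [← hk]; positivity
    set c : ℝ := (N + 2) * h / N with hc
    have hc0 : 0 < c := by positivity
    have hkc : k ≤ (c + K / c) / 2 := by
      have h1 : 2 * (k * c) ≤ c ^ 2 + K := by
        rw [← hk]
        have e1 : (k - c) ^ 2 = k ^ 2 - 2 * (k * c) + c ^ 2 := by ring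
        linarith [sq_nonneg (k - c)]
      have h2 : (c + K / c) / 2 = (c ^ 2 + K) / (2 * c) := by field_simp
      rw [h2, le_div_iff₀ (by positivity)]
      linarith
    have hKe : K = (N + 2) * h ^ 2 * (1 + τ) / N := by
      rw [hh]; field_simp; linarith [hτK]
    have h3 : K * ((c + K / c) / 2) / (N + 2) ^ 2 = (h ^ 3 / N ^ 2) * (1 + β) := by
      have h4 : K / c = h * (1 + τ) := by
        rw [hKe, hc]; field_simp
      rw [h4, hKe, hc, hβ, hι]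
      field_simp
      ring
    calc 1 / 10 ^ 9 * (K * k / (N + 2) ^ 2)
        ≤ 1 / 10 ^ 9 * (K * ((c + K / c) / 2) / (N + 2) ^ 2) := by gcongr
      _ = 1 / 10 ^ 9 * ((h ^ 3 / N ^ 2) * (1 + β)) := by rw [h3]
      _ = E + E * β := by rw [hEh]; ring
  have hexp : Real.exp (E * β) ≤ 1 + E * β + (E * β) ^ 2 := by
    have := Real.abs_exp_sub_one_sub_id_le hU1
    rw [abs_le] at this
    linarith [this.2]
  calc Real.exp (1 / 10 ^ 9 * (K * k / (N + 2) ^ 2)) ≤ Real.exp (E + E * β) :=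
        Real.exp_le_exp.2 hEU
    _ = Real.exp E * Real.exp (E * β) := Real.exp_add _ _
    _ ≤ Real.exp E * (1 + E * β + (E * β) ^ 2) := by gcongr
    _ ≤ Real.exp E * (1 + E * (3 / 2 * τ - 7 / 10 / (N + 2))) := by
        apply mul_le_mul_of_nonneg_left _ (Real.exp_pos _).le
        have h1 : (E * β) ^ 2 ≤ E * (1 / 1000 * ι) := by
          calc (E * β) ^ 2 = E * (E * β ^ 2) := by ring
            _ ≤ _ := by gcongr
        have h2 : β + 1 / 1000 * ι ≤ 3 / 2 * τ - 7 / 10 / (N + 2) := by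
          have h3 : (7 : ℝ) / 10 / (N + 2) = 7 / 10 * ι := by rw [hι]; ring
          have h4 : 1 / 2 * τ ^ 2 ≤ 45 / 1000 * ι := by
            have : τ ^ 2 = τ ^ 2 * (N + 2) * ι := by
              calc τ ^ 2 = τ ^ 2 * ((N + 2) * ι) := by rw [hι1]; ring
                _ = _ := by ring
            rw [this]
            have e1 : τ ^ 2 * (N + 2) * ι ≤ 9 / 100 * ι := mul_le_mul_of_nonneg_right hs3 hι0.le
            linarith
          have h5 : 748 / 1000 * ι ≤ (1 + τ) ^ 2 * ι := by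
            have e1 : (1 + τ) ^ 2 = 1 + 2 * τ + τ ^ 2 := by ring
            have e2 : 748 / 1000 ≤ (1 + τ) ^ 2 := by
              have e3 : (865 / 1000 : ℝ) ^ 2 ≤ (1 + τ) ^ 2 :=
                pow_le_pow_left₀ (by norm_num) (by linarith [hs5.1]) 2
              norm_num at e3 ⊢
              linarith
            exact mul_le_mul_of_nonneg_right e2 hι0.le
          rw [h3, hβ]
          linarith
        have h6 : E * (β + 1 / 1000 * ι) ≤ E * (3 / 2 * τ - 7 / 10 / (N + 2)) :=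
          mul_le_mul_of_nonneg_left h2 hE0.le
        linarith


end Pool.Agent.Helper35_PA
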