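import Pool.Agent.Helper35_PA.OneStepA

/-!
# The one-step inequality: sums over one step
-/

namespace Pool.Agent.Helper35_PA

open Finset Pool.Agent.Helper77_PA

theorem point (N X X' Y d1 d2 d3 : ℝ) (hN : 3 ≤ N) (hX : |X| ≤ 2 * N) (hX' : |X'| ≤ 2 * N)
    (hY : |Y| ≤ 4 * N) (h1 : |d1| ≤ 4) (h2 : |d2| ≤ 4) (h3 : |d3| ≤ 8) :
    Phi (N + 2) (X + d1) (X' + d2) (Y + d3) ≤
      Phi N X X' Y * (1 + 1 / 10 ^ 9 * ((10000 * N + X ^ 2 + X' ^ 2 + Y ^ 2) *
          Real.sqrt (10000 * N + X ^ 2 + X' ^ 2 + Y ^ 2) / N ^ 2) *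
        (3 / 2 * ((N * (2 * X * d1 + 2 * X' * d2 + 2 * Y * d3 + d1 ^ 2 + d2 ^ 2 + d3 ^ 2)
          - 2 * (X ^ 2 + X' ^ 2 + Y ^ 2)) / ((N + 2) * (10000 * N + X ^ 2 + X' ^ 2 + Y ^ 2)))
          - 7 / 10 / (N + 2))) := by
  have hN0 : 0 < N := by linarith
  have q1 : X ^ 2 ≤ 4 * N ^ 2 := by
    have := pow_le_pow_left₀ (abs_nonneg X) hX 2
    rw [sq_abs] at this; linarith
  have q2 : X' ^ 2 ≤ 4 * N ^ 2 := by
    have := pow_le_pow_left₀ (abs_nonneg X') hX' 2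
    rw [sq_abs] at this; linarith
  have q3 : Y ^ 2 ≤ 16 * N ^ 2 := by
    have := pow_le_pow_left₀ (abs_nonneg Y) hY 2
    rw [sq_abs] at this; linarith
  have r1 : d1 ^ 2 ≤ 16 := by
    have := pow_le_pow_left₀ (abs_nonneg d1) h1 2
    rw [sq_abs] at this; linarith
  have r2 : d2 ^ 2 ≤ 16 := by
    have := pow_le_pow_left₀ (abs_nonneg d2) h2 2
    rw [sq_abs] at this; linarith
  have r3 : d3 ^ 2 ≤ 64 := by
    have := pow_le_pow_left₀ (abs_nonneg d3) h3 2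
    rw [sq_abs] at this; linarith
  have hHpos : 0 ≤ 10000 * N + X ^ 2 + X' ^ 2 + Y ^ 2 := by positivity
  have hKpos : 0 ≤ 10000 * (N + 2) + (X + d1) ^ 2 + (X' + d2) ^ 2 + (Y + d3) ^ 2 := by positivity
  have hcs : (2 * X * d1 + 2 * X' * d2 + 2 * Y * d3) ^ 2 ≤ 384 * (X ^ 2 + X' ^ 2 + Y ^ 2) := by
    have e1 : (X * d1 + X' * d2 + Y * d3) ^ 2 ≤
        (X ^ 2 + X' ^ 2 + Y ^ 2) * (d1 ^ 2 + d2 ^ 2 + d3 ^ 2) := by
      have := add_nonneg (add_nonneg (sq_nonneg (X * d2 - X' * d1)) (sq_nonneg (X * d3 - Y * d1)))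
        (sq_nonneg (X' * d3 - Y * d2))
      have e2 : (X ^ 2 + X' ^ 2 + Y ^ 2) * (d1 ^ 2 + d2 ^ 2 + d3 ^ 2) -
        (X * d1 + X' * d2 + Y * d3) ^ 2 = (X * d2 - X' * d1) ^ 2 + (X * d3 - Y * d1) ^ 2 +
        (X' * d3 - Y * d2) ^ 2 := by ring
      linarith
    have e3 : (X ^ 2 + X' ^ 2 + Y ^ 2) * (d1 ^ 2 + d2 ^ 2 + d3 ^ 2) ≤
        (X ^ 2 + X' ^ 2 + Y ^ 2) * 96 := by
      apply mul_le_mul_of_nonneg_left _ (by positivity)
      linarith
    have e4 : (2 * X * d1 + 2 * X' * d2 + 2 * Y * d3) ^ 2 = 4 * (X * d1 + X' * d2 + Y * d3) ^ 2 := by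
      ring
    rw [e4]; linarith
  have hh : Real.sqrt (10000 * N + X ^ 2 + X' ^ 2 + Y ^ 2) ^ 2 =
      10000 * N + X ^ 2 + X' ^ 2 + Y ^ 2 := Real.sq_sqrt hHpos
  have hh0 := Real.sqrt_nonneg (10000 * N + X ^ 2 + X' ^ 2 + Y ^ 2)
  have hlin : |2 * X * d1 + 2 * X' * d2 + 2 * Y * d3| ≤
      196 / 10 * Real.sqrt (10000 * N + X ^ 2 + X' ^ 2 + Y ^ 2) := by
    apply abs_le_of_sq_le_sq _ (by positivity)
    rw [mul_pow, hh]
    have : 0 ≤ X ^ 2 + X' ^ 2 + Y ^ 2 := by positivity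
    norm_num
    linarith
  have key := exp_point N (10000 * N + X ^ 2 + X' ^ 2 + Y ^ 2)
    (10000 * (N + 2) + (X + d1) ^ 2 + (X' + d2) ^ 2 + (Y + d3) ^ 2)
    (2 * X * d1 + 2 * X' * d2 + 2 * Y * d3 + d1 ^ 2 + d2 ^ 2 + d3 ^ 2)
    (X ^ 2 + X' ^ 2 + Y ^ 2) (Real.sqrt (10000 * N + X ^ 2 + X' ^ 2 + Y ^ 2))
    (Real.sqrt (10000 * (N + 2) + (X + d1) ^ 2 + (X' + d2) ^ 2 + (Y + d3) ^ 2)) hN
    (by ring) (by positivity) (by linarith) (by ring) hh hh0 (Real.sq_sqrt hKpos)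
    (by
      have e1 : 2 * X * d1 + 2 * X' * d2 + 2 * Y * d3 + d1 ^ 2 + d2 ^ 2 + d3 ^ 2 =
        (2 * X * d1 + 2 * X' * d2 + 2 * Y * d3) + (d1 ^ 2 + d2 ^ 2 + d3 ^ 2) := by ring
      rw [e1]
      calc _ ≤ |2 * X * d1 + 2 * X' * d2 + 2 * Y * d3| + |d1 ^ 2 + d2 ^ 2 + d3 ^ 2| := abs_add_le _ _
        _ ≤ _ := by
          rw [abs_of_nonneg (by positivity : 0 ≤ d1 ^ 2 + d2 ^ 2 + d3 ^ 2)]
          linarith)
  exact key


section sums

variable {V : Type} [Fintype V] (D : StepData V)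

theorem sum_bd {f : V → ℝ} {c : ℝ} (hf : ∀ v, |f v| ≤ c) : |∑ v, D.q v * f v| ≤ c := by
  calc |∑ v, D.q v * f v| ≤ ∑ v, |D.q v * f v| := Finset.abs_sum_le_sum_abs _ _
    _ ≤ ∑ v, D.q v * c := by
        apply Finset.sum_le_sum
        intro v _
        rw [abs_mul, abs_of_nonneg (D.hq v)]
        exact mul_le_mul_of_nonneg_left (hf v) (D.hq v)
    _ = c := by rw [← Finset.sum_mul, D.hq1, one_mul]

theorem xi_bd : |D.xi| ≤ 2 := sum_bd D D.ht

theorem xi'_bd : |D.xi'| ≤ 2 := sum_bd D D.ht'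

theorem eta_bd : |D.eta| ≤ 4 := by
  apply sum_bd D
  intro v
  rw [abs_mul]
  have := mul_le_mul (D.ht v) (D.ht' v) (abs_nonneg _) (by norm_num)
  linarith

/-- the constant `g` -/
noncomputable def gg (x : ℝ) : ℝ :=
  D.pr 0 * D.s 0 ^ 2 / (1 + th * D.s 0 * x) + D.pr 1 * D.s 1 ^ 2 / (1 + th * D.s 1 * x)

theorem gg_bd {x : ℝ} (hx : |x| ≤ 2) : 0 ≤ gg D x ∧ gg D x ≤ 101 / 100 :=
  g_bd _ _ _ _ x (D.hpr 0) (D.hpr 1) D.hs1 (D.hs 0) (D.hs 1) hx _ rfl

/-- first order coefficient, first replica -/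
noncomputable def al (v : V) : ℝ := th * gg D D.xi * (D.t v - D.xi)

/-- first order coefficient, second replica -/
noncomputable def al' (v : V) : ℝ := th * gg D D.xi' * (D.t' v - D.xi')

theorem al_bd (v : V) : |al D v| ≤ 41 / 10000 := by
  unfold al
  have h1 := gg_bd D (xi_bd D)
  have h2 : |D.t v - D.xi| ≤ 4 := by
    calc _ ≤ |D.t v| + |D.xi| := abs_sub _ _
      _ ≤ _ := by linarith [D.ht v, xi_bd D]
  rw [abs_mul, abs_mul, abs_of_nonneg h1.1]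
  have h3 : |th| = 1 / 1000 := by unfold th; norm_num
  rw [h3]
  calc 1 / 1000 * gg D D.xi * |D.t v - D.xi| ≤ 1 / 1000 * (101 / 100) * 4 := by
        gcongr
        exact h1.2
    _ ≤ _ := by norm_num

theorem al'_bd (v : V) : |al' D v| ≤ 41 / 10000 := by
  unfold al'
  have h1 := gg_bd D (xi'_bd D)
  have h2 : |D.t' v - D.xi'| ≤ 4 := by
    calc _ ≤ |D.t' v| + |D.xi'| := abs_sub _ _
      _ ≤ _ := by linarith [D.ht' v, xi'_bd D]
  rw [abs_mul, abs_mul, abs_of_nonneg h1.1]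
  have h3 : |th| = 1 / 1000 := by unfold th; norm_num
  rw [h3]
  calc 1 / 1000 * gg D D.xi' * |D.t' v - D.xi'| ≤ 1 / 1000 * (101 / 100) * 4 := by
        gcongr
        exact h1.2
    _ ≤ _ := by norm_num

theorem sum_al : ∑ v, D.q v * al D v = 0 := by
  have : ∀ v, D.q v * al D v = th * gg D D.xi * (D.q v * D.t v) - th * gg D D.xi * D.xi * D.q v := by
    intro v; unfold al; ring
  simp_rw [this]
  rw [Finset.sum_sub_distrib, ← Finset.mul_sum, ← Finset.mul_sum, D.hq1]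
  unfold StepData.xi
  ring

theorem sum_al' : ∑ v, D.q v * al' D v = 0 := by
  have : ∀ v, D.q v * al' D v = th * gg D D.xi' * (D.q v * D.t' v)
      - th * gg D D.xi' * D.xi' * D.q v := by
    intro v; unfold al'; ring
  simp_rw [this]
  rw [Finset.sum_sub_distrib, ← Finset.mul_sum, ← Finset.mul_sum, D.hq1]
  unfold StepData.xi'
  ring

theorem sum_al_al' : ∑ v, D.q v * (al D v * al' D v) =
    th ^ 2 * (gg D D.xi * gg D D.xi') * (D.eta - D.xi * D.xi') := by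
  have : ∀ v, D.q v * (al D v * al' D v) = th ^ 2 * (gg D D.xi * gg D D.xi') *
      (D.q v * (D.t v * D.t' v)) - th ^ 2 * (gg D D.xi * gg D D.xi') * D.xi' * (D.q v * D.t v)
      - th ^ 2 * (gg D D.xi * gg D D.xi') * D.xi * (D.q v * D.t' v)
      + th ^ 2 * (gg D D.xi * gg D D.xi') * (D.xi * D.xi') * D.q v := by
    intro v; unfold al al'; ring
  simp_rw [this]
  rw [Finset.sum_add_distrib, Finset.sum_sub_distrib, Finset.sum_sub_distrib, ← Finset.mul_sum,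
    ← Finset.mul_sum, ← Finset.mul_sum, ← Finset.mul_sum, D.hq1]
  have h1 : ∑ v, D.q v * D.t v = D.xi := rfl
  have h2 : ∑ v, D.q v * D.t' v = D.xi' := rfl
  have h3 : ∑ v, D.q v * (D.t v * D.t' v) = D.eta := rfl
  rw [h1, h2, h3]
  ring

theorem den_ne {s x : ℝ} (hs : |s| ≤ 2) (hx : |x| ≤ 2) : 1 + th * s * x ≠ 0 := by
  have := (den_bd hs hx).1
  intro h
  rw [h] at this
  norm_num at this

theorem w_nonneg (v : V) (i j : Fin 2) : 0 ≤ D.w v i j := by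
  unfold StepData.w
  have h1 := D.hq v
  have h2 := D.hpr i
  have h3 := D.hpr j
  have h4 := rho_nonneg (D.hs i) (D.ht v) (xi_bd D)
  have h5 := rho_nonneg (D.hs j) (D.ht' v) (xi'_bd D)
  positivity

theorem sum_w (v : V) (c0 c1 c2 c3 : ℝ) :
    ∑ i, ∑ j, D.w v i j * (c0 + c1 * D.s i + c2 * D.s j + c3 * (D.s i * D.s j)) =
      D.q v * (c0 * ((1 - th * D.xi * al D v) * (1 - th * D.xi' * al' D v)) +
        c1 * (al D v * (1 - th * D.xi' * al' D v)) + c2 * ((1 - th * D.xi * al D v) * al' D v) +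
        c3 * (al D v * al' D v)) := by
  obtain ⟨h1, h2⟩ := rho_sums (D.pr 0) (D.pr 1) (D.s 0) (D.s 1) (D.t v) D.xi D.hpr1 D.hs0
    (den_ne (D.hs 0) (xi_bd D)) (den_ne (D.hs 1) (xi_bd D)) (gg D D.xi) rfl
  obtain ⟨h1', h2'⟩ := rho_sums (D.pr 0) (D.pr 1) (D.s 0) (D.s 1) (D.t' v) D.xi' D.hpr1 D.hs0
    (den_ne (D.hs 0) (xi'_bd D)) (den_ne (D.hs 1) (xi'_bd D)) (gg D D.xi') rfl
  have e1 : th * gg D D.xi * (D.t v - D.xi) = al D v := rfl
  have e2 : th * gg D D.xi' * (D.t' v - D.xi') = al' D v := rfl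
  rw [e1] at h1 h2
  rw [e2] at h1' h2'
  rw [← h1, ← h1', ← h2, ← h2']
  simp only [Fin.sum_univ_two, StepData.w]
  ring

/-- the size of the tilted mass -/
theorem sum_w_one : ∑ v, ∑ i, ∑ j, D.w v i j =
    1 + th ^ 4 * (gg D D.xi * gg D D.xi') * (D.xi * D.xi' * (D.eta - D.xi * D.xi')) := by
  have h : ∀ v, ∑ i, ∑ j, D.w v i j =
      D.q v - th * D.xi * (D.q v * al D v) - th * D.xi' * (D.q v * al' D v)
        + th ^ 2 * (D.xi * D.xi') * (D.q v * (al D v * al' D v)) := by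
    intro v
    have := sum_w D v 1 0 0 0
    simp only [zero_mul, add_zero, mul_one] at this
    rw [this]; ring
  simp_rw [h]
  rw [Finset.sum_add_distrib, Finset.sum_sub_distrib, Finset.sum_sub_distrib, ← Finset.mul_sum,
    ← Finset.mul_sum, ← Finset.mul_sum, D.hq1, sum_al, sum_al', sum_al_al']
  ring

/-- the pointwise bound for the conditional drift -/
theorem drift_point (t t' x x' y a a' N : ℝ) (hN : 0 ≤ N) (ht : |t| ≤ 2) (ht' : |t'| ≤ 2)
    (hx : |x| ≤ 2) (hx' : |x'| ≤ 2) (ha : |a| ≤ 41 / 10000) (ha' : |a'| ≤ 41 / 10000)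
    (Z : ℝ) (hZ : 0 ≤ Z) :
    (2 * (N * x) * t + 2 * (N * x') * t' + 2 * (N * y) * (t * t') + Z) *
        ((1 - th * x * a) * (1 - th * x' * a')) +
      2 * (N * x) * (a * (1 - th * x' * a')) + 2 * (N * x') * ((1 - th * x * a) * a') +
      2 * (N * y) * (a * a') ≤
    2 * (N * x) * t + 2 * (N * x') * t' + 2 * (N * y) * (t * t') + 2 * (N * x) * a +
      2 * (N * x') * a' + 2 * (N * y) * (a * a') +
      N * (1 / 10000 * ((|x| + |x'| + 2 * |y|) * (|x| + |x'|))) + 1001 / 1000 * Z := by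
  have hth : th = 1 / 1000 := rfl
  set m := |x| + |x'| with hm
  have hx0 := abs_nonneg x
  have hx'0 := abs_nonneg x'
  have hy0 := abs_nonneg y
  have hm0 : 0 ≤ m := by positivity
  have hm4 : m ≤ 4 := by linarith
  -- small quantities
  have e1 : |th * x * a| ≤ 5 / 10 ^ 6 * |x| := by
    rw [abs_mul, abs_mul, hth, abs_of_pos (by norm_num : (0:ℝ) < 1 / 1000)]
    nlinarith [abs_nonneg a]
  have e2 : |th * x' * a'| ≤ 5 / 10 ^ 6 * |x'| := by
    rw [abs_mul, abs_mul, hth, abs_of_pos (by norm_num : (0:ℝ) < 1 / 1000)]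
    nlinarith [abs_nonneg a']
  have e3 : |(1 - th * x * a) * (1 - th * x' * a') - 1| ≤ 6 / 10 ^ 6 * m := by
    have i1 : (1 - th * x * a) * (1 - th * x' * a') - 1 =
      (th * x * a) * (th * x' * a') - th * x * a - th * x' * a' := by ring
    rw [i1]
    have i2 : |(th * x * a) * (th * x' * a')| ≤ 1 / 10 ^ 6 * m := by
      rw [abs_mul]
      calc |th * x * a| * |th * x' * a'| ≤ (5 / 10 ^ 6 * |x|) * (5 / 10 ^ 6 * |x'|) := by gcongr
        _ ≤ (5 / 10 ^ 6 * |x|) * (5 / 10 ^ 6 * 2) := by gcongr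
        _ ≤ _ := by rw [hm]; nlinarith
    calc |th * x * a * (th * x' * a') - th * x * a - th * x' * a'|
        ≤ |th * x * a * (th * x' * a') - th * x * a| + |th * x' * a'| := abs_sub _ _
      _ ≤ (|th * x * a * (th * x' * a')| + |th * x * a|) + |th * x' * a'| := by
          gcongr; exact abs_sub _ _
      _ ≤ (1 / 10 ^ 6 * m + 5 / 10 ^ 6 * |x|) + 5 / 10 ^ 6 * |x'| := by gcongr
      _ = _ := by rw [hm]; ring
  set Q := (1 - th * x * a) * (1 - th * x' * a') with hQ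
  -- main term
  have f1 : (2 * (N * x) * t + 2 * (N * x') * t' + 2 * (N * y) * (t * t')) * (Q - 1) ≤
      N * ((4 * |x| + 4 * |x'| + 8 * |y|) * (6 / 10 ^ 6 * m)) := by
    have j1 : |2 * x * t + 2 * x' * t' + 2 * y * (t * t')| ≤ 4 * |x| + 4 * |x'| + 8 * |y| := by
      have k1 : |2 * x * t| ≤ 4 * |x| := by
        rw [abs_mul, abs_mul, abs_two]; nlinarith
      have k2 : |2 * x' * t'| ≤ 4 * |x'| := by
        rw [abs_mul, abs_mul, abs_two]; nlinarith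
      have k3 : |2 * y * (t * t')| ≤ 8 * |y| := by
        rw [abs_mul, abs_mul, abs_two, abs_mul]
        have : |t| * |t'| ≤ 2 * 2 := mul_le_mul ht ht' (abs_nonneg _) (by norm_num)
        nlinarith
      calc _ ≤ |2 * x * t + 2 * x' * t'| + |2 * y * (t * t')| := abs_add_le _ _
        _ ≤ (|2 * x * t| + |2 * x' * t'|) + |2 * y * (t * t')| := by
            gcongr; exact abs_add_le _ _
        _ ≤ _ := by linarith
    have j2 : (2 * (N * x) * t + 2 * (N * x') * t' + 2 * (N * y) * (t * t')) * (Q - 1) =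
      N * ((2 * x * t + 2 * x' * t' + 2 * y * (t * t')) * (Q - 1)) := by ring
    rw [j2]
    apply mul_le_mul_of_nonneg_left _ hN
    calc _ ≤ |(2 * x * t + 2 * x' * t' + 2 * y * (t * t')) * (Q - 1)| := le_abs_self _
      _ = |2 * x * t + 2 * x' * t' + 2 * y * (t * t')| * |Q - 1| := abs_mul _ _
      _ ≤ _ := by gcongr
  have f2 : -(2 * (N * x) * (a * (th * x' * a'))) ≤ N * (1 / 10 ^ 6 * (|x| * m)) := by
    have j2 : -(2 * (N * x) * (a * (th * x' * a'))) = N * (-(2 * x * (a * (th * x' * a')))) := by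
      ring
    rw [j2]
    apply mul_le_mul_of_nonneg_left _ hN
    calc _ ≤ |-(2 * x * (a * (th * x' * a')))| := le_abs_self _
      _ = 2 * |x| * (|a| * |th * x' * a'|) := by
          rw [abs_neg, abs_mul, abs_mul, abs_two, abs_mul]
      _ ≤ 2 * |x| * (41 / 10000 * (5 / 10 ^ 6 * |x'|)) := by gcongr
      _ ≤ _ := by rw [hm]; nlinarith
  have f3 : -(2 * (N * x') * ((th * x * a) * a')) ≤ N * (1 / 10 ^ 6 * (|x'| * m)) := by
    have j2 : -(2 * (N * x') * ((th * x * a) * a')) = N * (-(2 * x' * ((th * x * a) * a'))) := by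
      ring
    rw [j2]
    apply mul_le_mul_of_nonneg_left _ hN
    calc _ ≤ |-(2 * x' * ((th * x * a) * a'))| := le_abs_self _
      _ = 2 * |x'| * (|th * x * a| * |a'|) := by
          rw [abs_neg, abs_mul, abs_mul, abs_two, abs_mul]
      _ ≤ 2 * |x'| * ((5 / 10 ^ 6 * |x|) * (41 / 10000)) := by gcongr
      _ ≤ _ := by rw [hm]; nlinarith
  have f4 : Z * (Q - 1) ≤ 1 / 1000 * Z := by
    have : Q - 1 ≤ 1 / 1000 := by
      have := le_abs_self (Q - 1)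
      nlinarith
    nlinarith
  have f5 : N * ((4 * |x| + 4 * |x'| + 8 * |y|) * (6 / 10 ^ 6 * m)) + N * (1 / 10 ^ 6 * (|x| * m)) +
      N * (1 / 10 ^ 6 * (|x'| * m)) ≤ N * (1 / 10000 * ((|x| + |x'| + 2 * |y|) * m)) := by
    rw [← mul_add, ← mul_add]
    apply mul_le_mul_of_nonneg_left _ hN
    have k1 : 0 ≤ |x| * m := by positivity
    have k2 : 0 ≤ |x'| * m := by positivity
    have k3 : 0 ≤ |y| * m := by positivity
    nlinarith
  have g1 : (2 * (N * x) * t + 2 * (N * x') * t' + 2 * (N * y) * (t * t') + Z) * Q +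
      2 * (N * x) * (a * (1 - th * x' * a')) + 2 * (N * x') * ((1 - th * x * a) * a') +
      2 * (N * y) * (a * a') =
    2 * (N * x) * t + 2 * (N * x') * t' + 2 * (N * y) * (t * t') + 2 * (N * x) * a +
      2 * (N * x') * a' + 2 * (N * y) * (a * a') + Z +
      ((2 * (N * x) * t + 2 * (N * x') * t' + 2 * (N * y) * (t * t')) * (Q - 1) +
        -(2 * (N * x) * (a * (th * x' * a'))) + -(2 * (N * x') * ((th * x * a) * a')) +
        Z * (Q - 1)) := by ring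
  rw [g1]
  linarith

end sums

end Pool.Agent.Helper35_PA
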